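import Mathlib

/-!
# Second derivatives of logarithmic potentials in two orthogonal directions (for the one step loss lemma)
-/

set_option autoImplicit false

open Complex Metric Set Filter Topology

noncomputable section

namespace PO

/-- `LA F a`: the function `t ↦ F t + F (t I)` is differentiable near `0` with a derivative which has derivative `a` at `0` (so `a` is the Laplacian of `F` at `0`). -/
def LA (F : ℂ → ℝ) (a : ℝ) : Prop :=
  ∃ p : ℝ → ℝ, (∀ᶠ t in 𝓝 (0 : ℝ), HasDerivAt (fun s : ℝ => F (s : ℂ) + F ((s : ℂ) * I)) (p t) t) ∧ HasDerivAt p a 0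

theorem LA_add {F G : ℂ → ℝ} {a b : ℝ} (h1 : LA F a) (h2 : LA G b) : LA (fun z => F z + G z) (a + b) := by
  obtain ⟨p, hp, hp0⟩ := h1
  obtain ⟨q, hq, hq0⟩ := h2
  refine ⟨fun t => p t + q t, ?_, hp0.add hq0⟩
  filter_upwards [hp, hq] with t h1 h2
  refine (h1.add h2).congr_of_eventuallyEq (Eventually.of_forall fun s => ?_)
  simp only [Pi.add_apply]
  ring

theorem LA_smul {F : ℂ → ℝ} {a : ℝ} (k : ℝ) (h1 : LA F a) : LA (fun z => k * F z) (k * a) := by
  obtain ⟨p, hp, hp0⟩ := h1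
  refine ⟨fun t => k * p t, ?_, hp0.const_mul k⟩
  filter_upwards [hp] with t h1
  refine (h1.const_mul k).congr_of_eventuallyEq (Eventually.of_forall fun s => ?_)
  ring

theorem LA_sum {ι : Type*} (s : Finset ι) (F : ι → ℂ → ℝ) (a : ι → ℝ) (h : ∀ i ∈ s, LA (F i) (a i)) :
    LA (fun z => ∑ i ∈ s, F i z) (∑ i ∈ s, a i) := by
  classical
  induction s using Finset.induction_on with
  | empty =>
    refine ⟨fun _ => 0, Eventually.of_forall fun t => ?_, ?_⟩
    · simpa using hasDerivAt_const t (0 : ℝ)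
    · simpa using hasDerivAt_const (0 : ℝ) (0 : ℝ)
  | insert i s hi ih =>
    have h1 := LA_add (h i (Finset.mem_insert_self i s)) (ih fun j hj => h j (Finset.mem_insert_of_mem hj))
    simpa only [Finset.sum_insert hi] using h1

/-- the test at a local minimum. -/
theorem LA_test {F : ℂ → ℝ} {a : ℝ} (h : LA F a) (hm : ∀ᶠ z in 𝓝 (0 : ℂ), F 0 ≤ F z) : 0 ≤ a := by
  obtain ⟨p, hp, hp0⟩ := h
  by_contra hneg
  push Not at hneg
  set Ψ : ℝ → ℝ := fun s => F (s : ℂ) + F ((s : ℂ) * I) with hΨ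
  have hmin : IsLocalMin Ψ 0 := by
    have c1 : Tendsto (fun s : ℝ => (s : ℂ)) (𝓝 0) (𝓝 (0 : ℂ)) := by
      have := (Complex.continuous_ofReal.tendsto (0 : ℝ))
      simpa using this
    have c2 : Tendsto (fun s : ℝ => (s : ℂ) * I) (𝓝 0) (𝓝 (0 : ℂ)) := by
      have := (by fun_prop : Continuous fun s : ℝ => (s : ℂ) * I).tendsto (0 : ℝ)
      simpa using this
    filter_upwards [c1.eventually hm, c2.eventually hm] with s h1 h2
    simp only [hΨ, Complex.ofReal_zero, zero_mul]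
    linarith
  have hd : deriv Ψ =ᶠ[𝓝 0] p := by
    filter_upwards [hp] with t ht
    exact ht.deriv
  have hp00 : p 0 = 0 := by
    rw [← hd.eq_of_nhds]
    exact hmin.deriv_eq_zero
  have hdd : deriv (deriv Ψ) 0 = a := by
    rw [hd.deriv_eq]
    exact hp0.deriv
  have hmax : IsLocalMax Ψ 0 := by
    apply isLocalMax_of_deriv_deriv_neg
    · rw [hdd]; exact hneg
    · exact hmin.deriv_eq_zero
    · exact (hp.self_of_nhds).continuousAt
  have hc : Ψ =ᶠ[𝓝 0] fun _ => Ψ 0 := by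
    filter_upwards [hmin, hmax] with s h1 h2
    exact le_antisymm h2 h1
  have h3 : deriv Ψ =ᶠ[𝓝 0] fun _ => (0 : ℝ) := by
    have := hc.deriv
    refine this.trans (Eventually.of_forall fun t => ?_)
    simp
  have h4 : deriv (deriv Ψ) 0 = 0 := by
    rw [h3.deriv_eq]
    simp
  linarith

/-- the derivative of `log ‖g‖` along a line. -/
theorem logn (g : ℂ → ℂ) (g' v : ℂ) (t : ℝ) (h : HasDerivAt g g' ((t : ℂ) * v)) (h0 : g ((t : ℂ) * v) ≠ 0) :
    HasDerivAt (fun s : ℝ => Real.log ‖g ((s : ℂ) * v)‖) (v * g' / g ((t : ℂ) * v)).re t := by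
  have e1 : HasDerivAt (fun s : ℝ => (s : ℂ) * v) v t := by
    have := (Complex.ofRealCLM.hasDerivAt (x := t)).mul_const v
    simpa using this
  have e2 : HasDerivAt (fun s : ℝ => g ((s : ℂ) * v)) (g' * v) t := by
    have := HasDerivAt.comp_ofReal (z := t) (e := fun z => g (z * v)) (e' := g' * v) ?_
    · simpa using this
    · have h2 : HasDerivAt (fun z : ℂ => z * v) v (t : ℂ) := by
        simpa using (hasDerivAt_id (t : ℂ)).mul_const v
      exact HasDerivAt.comp (t : ℂ) h h2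
  have e3 : HasDerivAt (fun s : ℝ => Complex.log (g ((s : ℂ) * v) / g ((t : ℂ) * v))) (g' * v / g ((t : ℂ) * v)) t := by
    have h3 : HasDerivAt (fun s : ℝ => g ((s : ℂ) * v) / g ((t : ℂ) * v)) (g' * v / g ((t : ℂ) * v)) t := e2.div_const _
    have h4 : g ((t : ℂ) * v) / g ((t : ℂ) * v) ∈ slitPlane := by
      rw [div_self h0]; exact Complex.one_mem_slitPlane
    have h5 := h3.clog_real h4
    simpa [div_self h0] using h5
  have e4 : HasDerivAt (fun s : ℝ => (Complex.log (g ((s : ℂ) * v) / g ((t : ℂ) * v))).re + Real.log ‖g ((t : ℂ) * v)‖)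
      (g' * v / g ((t : ℂ) * v)).re t := by
    have := (Complex.reCLM.hasFDerivAt.comp_hasDerivAt t e3)
    simpa using this.add_const (Real.log ‖g ((t : ℂ) * v)‖)
  have e5 : (v * g' / g ((t : ℂ) * v)).re = (g' * v / g ((t : ℂ) * v)).re := by rw [mul_comm v g']
  rw [e5]
  refine e4.congr_of_eventuallyEq ?_
  have h6 : ∀ᶠ s : ℝ in 𝓝 t, g ((s : ℂ) * v) ≠ 0 := e2.continuousAt.eventually_ne h0
  filter_upwards [h6] with s hs
  rw [Complex.log_re, norm_div, Real.log_div (norm_ne_zero_iff.mpr hs) (norm_ne_zero_iff.mpr h0)]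
  ring

/-- derivative along a line, complex valued. -/
theorem lin (g : ℂ → ℂ) (g' v : ℂ) (t : ℝ) (h : HasDerivAt g g' ((t : ℂ) * v)) :
    HasDerivAt (fun s : ℝ => g ((s : ℂ) * v)) (v * g') t := by
  have := HasDerivAt.comp_ofReal (z := t) (e := fun z => g (z * v)) (e' := g' * v) ?_
  · simpa [mul_comm] using this
  · have h2 : HasDerivAt (fun z : ℂ => z * v) v (t : ℂ) := by
      simpa using (hasDerivAt_id (t : ℂ)).mul_const v
    exact HasDerivAt.comp (t : ℂ) h h2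

theorem dre (f : ℝ → ℂ) (f' : ℂ) (t : ℝ) (h : HasDerivAt f f' t) : HasDerivAt (fun s => (f s).re) f'.re t :=
  Complex.reCLM.hasFDerivAt.comp_hasDerivAt t h

theorem dim (f : ℝ → ℂ) (f' : ℂ) (t : ℝ) (h : HasDerivAt f f' t) : HasDerivAt (fun s => (f s).im) f'.im t :=
  Complex.imCLM.hasFDerivAt.comp_hasDerivAt t h

theorem lin_re (g : ℂ → ℂ) (g' v : ℂ) (t : ℝ) (h : HasDerivAt g g' ((t : ℂ) * v)) :
    HasDerivAt (fun s : ℝ => (g ((s : ℂ) * v)).re) (v * g').re t :=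
  dre _ _ t (lin g g' v t h)

theorem tend (v : ℂ) : Tendsto (fun t : ℝ => (t : ℂ) * v) (𝓝 0) (𝓝 (0 : ℂ)) := by
  have := (by fun_prop : Continuous fun s : ℝ => (s : ℂ) * v).tendsto (0 : ℝ)
  simpa using this

/-- logarithmic derivative. -/
theorem ldr (g : ℂ → ℂ) (hg : AnalyticAt ℂ g 0) (h0 : g 0 ≠ 0) :
    (∀ᶠ z in 𝓝 (0 : ℂ), HasDerivAt g (deriv g z) z ∧ g z ≠ 0) ∧ ∃ ρ : ℂ, HasDerivAt (fun z => deriv g z / g z) ρ 0 := by
  constructor
  · filter_upwards [hg.eventually_analyticAt, hg.continuousAt.eventually_ne h0] with z hz hz0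
    exact ⟨hz.differentiableAt.hasDerivAt, hz0⟩
  · exact ⟨_, (hg.deriv.fun_div hg h0).differentiableAt.hasDerivAt⟩

theorem LA_log (g : ℂ → ℂ) (hg : AnalyticAt ℂ g 0) (h0 : g 0 ≠ 0) : LA (fun z => Real.log ‖g z‖) 0 := by
  obtain ⟨h1, ρ, hρ⟩ := ldr g hg h0
  refine ⟨fun t => (deriv g ((t : ℂ) * 1) / g ((t : ℂ) * 1)).re + (I * (deriv g ((t : ℂ) * I) / g ((t : ℂ) * I))).re, ?_, ?_⟩
  · filter_upwards [(tend 1).eventually h1, (tend I).eventually h1] with t ht1 ht2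
    have e1 := logn g _ 1 t ht1.1 ht1.2
    have e2 := logn g _ I t ht2.1 ht2.2
    have e3 := e1.add e2
    simp only [mul_one, one_mul, mul_div_assoc] at e3 ⊢
    exact e3
  · have e1 : HasDerivAt (fun t : ℝ => (deriv g ((t : ℂ) * 1) / g ((t : ℂ) * 1)).re) (1 * ρ).re 0 := by
      apply lin_re (fun z => deriv g z / g z) ρ 1 0
      simpa using hρ
    have e2 : HasDerivAt (fun t : ℝ => (I * (deriv g ((t : ℂ) * I) / g ((t : ℂ) * I))).re) (I * (I * ρ)).re 0 := by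
      apply lin_re (fun z => I * (deriv g z / g z)) (I * ρ) I 0
      simpa using hρ.const_mul I
    have e3 := e1.add e2
    have e4 : (1 * ρ).re + (I * (I * ρ)).re = 0 := by
      rw [← mul_assoc, Complex.I_mul_I]; simp
    rw [e4] at e3
    exact e3

/-- the derivative of `‖B‖ ^ 2` along a line. -/
theorem nsq (B : ℂ → ℂ) (b' v : ℂ) (t : ℝ) (h : HasDerivAt B b' ((t : ℂ) * v)) :
    HasDerivAt (fun s : ℝ => ‖B ((s : ℂ) * v)‖ ^ 2) (2 * ((starRingEnd ℂ) (B ((t : ℂ) * v)) * (v * b')).re) t := by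
  have e := lin B b' v t h
  have e1 : HasDerivAt (fun s : ℝ => (B ((s : ℂ) * v)).re) (v * b').re t := dre _ _ t e
  have e2 : HasDerivAt (fun s : ℝ => (B ((s : ℂ) * v)).im) (v * b').im t := dim _ _ t e
  have e3 := (e1.pow 2).add (e2.pow 2)
  refine (e3.congr_of_eventuallyEq (Eventually.of_forall fun s => ?_)).congr_deriv ?_
  · simp only [Pi.add_apply, Pi.pow_apply]
    rw [← Complex.normSq_eq_norm_sq, Complex.normSq_apply]
    ring
  · simp [Complex.mul_re, Complex.mul_im]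
    ring

theorem LA_B (B : ℂ → ℂ) (hB : AnalyticAt ℂ B 0) (h0 : ‖B 0‖ < 1) :
    LA (fun z => Real.log (1 - ‖B z‖ ^ 2)) (-4 * ‖deriv B 0‖ ^ 2 / (1 - ‖B 0‖ ^ 2) ^ 2) := by
  have hcB : ContinuousAt B 0 := hB.continuousAt
  have hpos : 0 < 1 - ‖B 0‖ ^ 2 := by nlinarith [norm_nonneg (B 0)]
  have h1 : ∀ᶠ z in 𝓝 (0 : ℂ), HasDerivAt B (deriv B z) z ∧ (1 : ℝ) - ‖B z‖ ^ 2 ≠ 0 := by
    have hc : ContinuousAt (fun z => (1 : ℝ) - ‖B z‖ ^ 2) 0 := by fun_prop
    filter_upwards [hB.eventually_analyticAt, hc.eventually_ne (show (1 : ℝ) - ‖B 0‖ ^ 2 ≠ 0 from hpos.ne')] with z hz hz0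
    exact ⟨hz.differentiableAt.hasDerivAt, hz0⟩
  set N : ℂ → ℝ → ℝ := fun v t => (-(2 * ((starRingEnd ℂ) (B ((t : ℂ) * v)) * (v * deriv B ((t : ℂ) * v))).re)) /
    (1 - ‖B ((t : ℂ) * v)‖ ^ 2) with hN
  set D := 1 - ‖B 0‖ ^ 2 with hD
  have key : ∀ v : ℂ, ‖v‖ = 1 → HasDerivAt (N v) ((-(2 * (‖deriv B 0‖ ^ 2 + ((starRingEnd ℂ) (B 0) * (v * (v * deriv (deriv B) 0))).re)) * D -
      4 * (((starRingEnd ℂ) (B 0)) * (v * deriv B 0)).re ^ 2) / D ^ 2) 0 := by
    intro v hv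
    have a1 : HasDerivAt (fun t : ℝ => B ((t : ℂ) * v)) (v * deriv B 0) 0 := by
      apply lin B (deriv B 0) v 0
      simpa using hB.differentiableAt.hasDerivAt
    have a2 : HasDerivAt (fun t : ℝ => v * deriv B ((t : ℂ) * v)) (v * (v * deriv (deriv B) 0)) 0 := by
      have := (lin (deriv B) (deriv (deriv B) 0) v 0 (by simpa using hB.deriv.differentiableAt.hasDerivAt)).const_mul v
      exact this
    have a3 : HasDerivAt (fun t : ℝ => (starRingEnd ℂ) (B ((t : ℂ) * v))) ((starRingEnd ℂ) (v * deriv B 0)) 0 := a1.star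
    have a4 := dre _ _ (0 : ℝ) (a3.mul a2)
    have a5 : HasDerivAt (fun t : ℝ => (1 : ℝ) - ‖B ((t : ℂ) * v)‖ ^ 2) (-(2 * ((starRingEnd ℂ) (B 0) * (v * deriv B 0)).re)) 0 := by
      have := (nsq B (deriv B 0) v 0 (by simpa using hB.differentiableAt.hasDerivAt)).const_sub 1
      simpa only [Complex.ofReal_zero, zero_mul] using this
    have a6 := ((a4.const_mul 2).neg).div a5 (by simp only [Complex.ofReal_zero, zero_mul]; exact hpos.ne')
    have e7 : ((starRingEnd ℂ) (v * deriv B 0) * (v * deriv B 0)).re = ‖deriv B 0‖ ^ 2 := by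
      rw [mul_comm, Complex.mul_conj, Complex.ofReal_re, Complex.normSq_eq_norm_sq, norm_mul, hv, one_mul]
    refine a6.congr_deriv ?_
    simp only [Complex.ofReal_zero, zero_mul, Complex.add_re, e7, Pi.mul_apply, ← hD, Pi.neg_apply]
    congr 1
    ring
  refine ⟨fun t => N 1 t + N I t, ?_, ?_⟩
  · filter_upwards [(tend 1).eventually h1, (tend I).eventually h1] with t ht1 ht2
    have e1 := ((nsq B _ 1 t ht1.1).const_sub 1).log ht1.2
    have e2 := ((nsq B _ I t ht2.1).const_sub 1).log ht2.2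
    have e3 := e1.add e2
    simp only [mul_one, one_mul] at e3
    refine e3.congr_deriv ?_
    simp only [hN, mul_one, one_mul]
  · refine ((key 1 (by simp)).add (key I (by simp))).congr_deriv ?_
    have e1 : ((starRingEnd ℂ) (B 0) * (1 * (1 * deriv (deriv B) 0))).re + ((starRingEnd ℂ) (B 0) * (I * (I * deriv (deriv B) 0))).re = 0 := by
      rw [← mul_assoc I I, Complex.I_mul_I]; simp
    have e2 : (((starRingEnd ℂ) (B 0)) * (1 * deriv B 0)).re ^ 2 + (((starRingEnd ℂ) (B 0)) * (I * deriv B 0)).re ^ 2 = ‖B 0‖ ^ 2 * ‖deriv B 0‖ ^ 2 := by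
      have : ‖B 0‖ ^ 2 * ‖deriv B 0‖ ^ 2 = ‖(starRingEnd ℂ) (B 0) * deriv B 0‖ ^ 2 := by
        rw [norm_mul, Complex.norm_conj]; ring
      rw [this, ← Complex.normSq_eq_norm_sq, Complex.normSq_apply]
      simp [Complex.mul_re, Complex.mul_im]
      ring
    rw [← add_div]
    congr 1
    have e3 : ‖B 0‖ ^ 2 = 1 - D := by rw [hD]; ring
    rw [e3] at e2
    linear_combination (-2 * D) * e1 - 4 * e2

theorem LA_one (x : ℂ) (hx : ‖x‖ < 1) : LA (fun z => Real.log (1 - ‖x + z‖ ^ 2)) (-4 / (1 - ‖x‖ ^ 2) ^ 2) := by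
  have h := LA_B (fun z => x + z) (by fun_prop) (by simpa using hx)
  have e : deriv (fun z : ℂ => x + z) 0 = 1 := by simp
  simpa [e] using h

/-- composition with `log cosh`. -/
theorem lcosh (κ : ℝ) (ℓ : ℝ → ℝ) (ℓ' t : ℝ) (h : HasDerivAt ℓ ℓ' t) :
    HasDerivAt (fun s => Real.log (Real.cosh (κ * ℓ s))) (κ * (Real.sinh (κ * ℓ t) / Real.cosh (κ * ℓ t)) * ℓ') t := by
  have e1 := (h.const_mul κ).cosh
  have e2 := e1.log (Real.cosh_pos _).ne'
  refine e2.congr_deriv ?_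
  ring

theorem tanhd (κ : ℝ) (ℓ : ℝ → ℝ) (ℓ' t : ℝ) (h : HasDerivAt ℓ ℓ' t) :
    HasDerivAt (fun s => Real.sinh (κ * ℓ s) / Real.cosh (κ * ℓ s)) (κ * ℓ' / Real.cosh (κ * ℓ t) ^ 2) t := by
  have e1 := (h.const_mul κ).cosh
  have e2 := (h.const_mul κ).sinh
  have e3 := e2.div e1 (Real.cosh_pos _).ne'
  refine e3.congr_deriv ?_
  have : Real.cosh (κ * ℓ t) ^ 2 - Real.sinh (κ * ℓ t) ^ 2 = 1 := Real.cosh_sq_sub_sinh_sq _
  congr 1
  linear_combination (κ * ℓ') * this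

theorem LA_cosh (κ : ℝ) (g : ℂ → ℂ) (hg : AnalyticAt ℂ g 0) (h0 : g 0 ≠ 0) :
    LA (fun z => Real.log (Real.cosh (κ * Real.log ‖g z‖))) (κ ^ 2 * ‖deriv g 0 / g 0‖ ^ 2 / Real.cosh (κ * Real.log ‖g 0‖) ^ 2) := by
  obtain ⟨h1, ρ, hρ⟩ := ldr g hg h0
  set q : ℂ → ℝ → ℝ := fun v t => κ * (Real.sinh (κ * Real.log ‖g ((t : ℂ) * v)‖) / Real.cosh (κ * Real.log ‖g ((t : ℂ) * v)‖)) *
    (v * (deriv g ((t : ℂ) * v) / g ((t : ℂ) * v))).re with hq
  set r := deriv g 0 / g 0 with hr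
  set th := Real.sinh (κ * Real.log ‖g 0‖) / Real.cosh (κ * Real.log ‖g 0‖) with hth
  have key : ∀ v : ℂ, HasDerivAt (q v) (κ * (κ * (v * r).re / Real.cosh (κ * Real.log ‖g 0‖) ^ 2) * (v * r).re + κ * th * (v * (v * ρ)).re) 0 := by
    intro v
    have g0 : HasDerivAt g (deriv g 0) (((0 : ℝ) : ℂ) * v) := by simpa using hg.differentiableAt.hasDerivAt
    have a1 := logn g (deriv g 0) v 0 g0 (by simpa using h0)
    have a2 := (tanhd κ _ _ 0 a1).const_mul κ
    have a3 : HasDerivAt (fun t : ℝ => (v * (deriv g ((t : ℂ) * v) / g ((t : ℂ) * v))).re) (v * (v * ρ)).re 0 := by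
      apply lin_re (fun z => v * (deriv g z / g z)) (v * ρ) v 0
      simpa using hρ.const_mul v
    have a4 := a2.mul a3
    refine a4.congr_deriv ?_
    simp only [Complex.ofReal_zero, zero_mul, mul_div_assoc, hr, hth]
  refine ⟨fun t => q 1 t + q I t, ?_, ?_⟩
  · filter_upwards [(tend 1).eventually h1, (tend I).eventually h1] with t ht1 ht2
    have e1 := lcosh κ _ _ t (logn g _ 1 t ht1.1 ht1.2)
    have e2 := lcosh κ _ _ t (logn g _ I t ht2.1 ht2.2)
    have e3 := e1.add e2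
    simp only [mul_one, one_mul] at e3
    refine e3.congr_deriv ?_
    simp only [hq, mul_one, one_mul, mul_div_assoc]
  · refine ((key 1).add (key I)).congr_deriv ?_
    have e1 : (1 * (1 * ρ)).re + (I * (I * ρ)).re = 0 := by
      rw [← mul_assoc I I, Complex.I_mul_I]; simp
    have e2 : (1 * r).re ^ 2 + (I * r).re ^ 2 = ‖r‖ ^ 2 := by
      rw [← Complex.normSq_eq_norm_sq, Complex.normSq_apply]
      simp [Complex.mul_re]
      ring
    have e3 : κ * (κ * (1 * r).re / Real.cosh (κ * Real.log ‖g 0‖) ^ 2) * (1 * r).re + κ * th * (1 * (1 * ρ)).re +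
        (κ * (κ * (I * r).re / Real.cosh (κ * Real.log ‖g 0‖) ^ 2) * (I * r).re + κ * th * (I * (I * ρ)).re) =
        κ ^ 2 * ((1 * r).re ^ 2 + (I * r).re ^ 2) / Real.cosh (κ * Real.log ‖g 0‖) ^ 2 + κ * th * ((1 * (1 * ρ)).re + (I * (I * ρ)).re) := by
      ring
    rw [e3, e1, e2]
    ring

end PO
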