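import Pool.Agent.helper52.HY.Spec
import Pool.Agent.helper22.PO.LA

/-!
# The one step loss lemma: the argument at a minimum
-/

set_option autoImplicit false

open Complex Metric Set Filter Topology
open HY

noncomputable section

namespace PO

/-- the function `M log B^# + ∑ log cosh (K G(x, c_i))`. -/
def LL (B : ℂ → ℂ) (M K : ℕ) (c : Fin M → ℂ) (x : ℂ) : ℝ :=
  M * Real.log (hd B x * (1 - ‖x‖ ^ 2)) + ∑ i, Real.log (Real.cosh (K * Real.log ‖T (c i) x‖))

/-- AM-GM. -/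
theorem amgm (M : ℕ) (hM : 1 ≤ M) (b : ℝ) (hb : 0 < b) (x : Fin M → ℝ) (hx : ∀ i, 0 < x i)
    (h : 2 * (M * Real.log b) < ∑ i, Real.log (x i)) : M * b ^ 2 < ∑ i, x i := by
  have hM0 : (0 : ℝ) < M := by exact_mod_cast hM
  haveI : Nonempty (Fin M) := ⟨⟨0, hM⟩⟩
  have hs : 0 < ∑ i, x i := Finset.sum_pos (fun i _ => hx i) Finset.univ_nonempty
  set s := (∑ i, x i) / M with hsd
  have hs0 : 0 < s := by positivity
  have h1 : ∑ i, Real.log (x i) ≤ M * Real.log s := by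
    have h2 : ∀ i ∈ Finset.univ, Real.log (x i) ≤ Real.log s + (x i / s - 1) := by
      intro i _
      have h3 := Real.log_le_sub_one_of_pos (div_pos (hx i) hs0)
      rw [Real.log_div (hx i).ne' hs0.ne'] at h3
      linarith
    refine (Finset.sum_le_sum h2).trans (le_of_eq ?_)
    rw [Finset.sum_add_distrib, Finset.sum_sub_distrib, ← Finset.sum_div]
    simp only [Finset.sum_const, Finset.card_univ, Fintype.card_fin, nsmul_eq_mul, mul_one]
    have h4 : (∑ i, x i) / s = M := by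
      rw [hsd]; field_simp
    rw [h4]; ring
  have h5 : Real.log (b ^ 2) < Real.log s := by
    rw [Real.log_pow]
    push_cast
    have h6 : M * (2 * Real.log b) < M * Real.log s := by linarith
    exact lt_of_mul_lt_mul_left h6 hM0.le
  have h7 : b ^ 2 < s := (Real.log_lt_log_iff (by positivity) hs0).mp h5
  rw [hsd, lt_div_iff₀ hM0] at h7
  linarith

/-- `K sinh u ≤ sinh (K u)`. -/
theorem sinh_mul_le (K : ℕ) (u : ℝ) (hu : 0 ≤ u) : K * Real.sinh u ≤ Real.sinh (K * u) := by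
  induction K with
  | zero => simp
  | succ K ih =>
    have e : ((K + 1 : ℕ) : ℝ) * u = K * u + u := by push_cast; ring
    rw [e, Real.sinh_add]
    have h1 : 0 ≤ Real.sinh u := Real.sinh_nonneg_iff.mpr hu
    have h2 : 0 ≤ Real.sinh (K * u) := Real.sinh_nonneg_iff.mpr (by positivity)
    have h3 := Real.one_le_cosh u
    have h4 := Real.one_le_cosh (K * u)
    push_cast
    nlinarith

theorem sinh_sq_le (K : ℕ) (u : ℝ) : (K : ℝ) ^ 2 * Real.sinh u ^ 2 ≤ Real.sinh (K * u) ^ 2 := by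
  have h1 := sinh_mul_le K |u| (abs_nonneg u)
  have h2 : Real.sinh |u| ^ 2 = Real.sinh u ^ 2 := by
    rcases abs_cases u with ⟨h, _⟩ | ⟨h, _⟩ <;> rw [h] <;> simp
  have h3 : Real.sinh (K * |u|) ^ 2 = Real.sinh (K * u) ^ 2 := by
    rcases abs_cases u with ⟨h, _⟩ | ⟨h, _⟩ <;> rw [h] <;> simp
  rw [← h2, ← h3, ← mul_pow]
  have h4 : 0 ≤ Real.sinh |u| := Real.sinh_nonneg_iff.mpr (abs_nonneg u)
  exact pow_le_pow_left₀ (by positivity) h1 2

theorem den_ne (a x : ℂ) (ha : ‖a‖ < 1) (hx : ‖x‖ < 1) : 1 - (starRingEnd ℂ) a * x ≠ 0 := by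
  intro h
  have h1 : ‖(starRingEnd ℂ) a * x‖ = 1 := by
    rw [← sub_eq_zero.mp h, norm_one]
  rw [norm_mul, Complex.norm_conj] at h1
  nlinarith [norm_nonneg a, norm_nonneg x]

theorem T_hasDeriv (a x : ℂ) (ha : ‖a‖ < 1) (hx : ‖x‖ < 1) :
    HasDerivAt (T a) ((1 - ‖a‖ ^ 2 : ℝ) / (1 - (starRingEnd ℂ) a * x) ^ 2 : ℂ) x := by
  have h1 : HasDerivAt (fun x => x - a) 1 x := by simpa using (hasDerivAt_id x).sub_const a
  have h2 : HasDerivAt (fun x => 1 - (starRingEnd ℂ) a * x) (-(starRingEnd ℂ) a) x := by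
    simpa using ((hasDerivAt_id x).const_mul ((starRingEnd ℂ) a)).const_sub 1
  have h3 := h1.div h2 (den_ne a x ha hx)
  refine h3.congr_deriv ?_
  congr 1
  have : (starRingEnd ℂ) a * a = (‖a‖ ^ 2 : ℝ) := by
    rw [mul_comm, Complex.mul_conj, Complex.normSq_eq_norm_sq]
  push_cast at this ⊢
  linear_combination (-1 : ℂ) * this

/-- `1 - ‖T a x‖ ^ 2`. -/
theorem one_sub_T (a x : ℂ) (ha : ‖a‖ < 1) (hx : ‖x‖ < 1) :
    1 - ‖T a x‖ ^ 2 = (1 - ‖a‖ ^ 2) * (1 - ‖x‖ ^ 2) / ‖1 - (starRingEnd ℂ) a * x‖ ^ 2 := by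
  have h0 : ‖1 - (starRingEnd ℂ) a * x‖ ^ 2 ≠ 0 := pow_ne_zero 2 (norm_ne_zero_iff.mpr (den_ne a x ha hx))
  rw [T, norm_div, div_pow, eq_div_iff h0, sub_mul, div_mul_cancel₀ _ h0, one_mul]
  simp only [← Complex.normSq_eq_norm_sq, Complex.normSq_apply, Complex.sub_re, Complex.sub_im, Complex.mul_re, Complex.mul_im,
    Complex.conj_re, Complex.conj_im, Complex.one_re, Complex.one_im]
  ring

/-- the square of the logarithmic derivative of `T a` is `4 sinh² G/(1 - ‖x‖²)²`. -/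
theorem T_log (a x : ℂ) (ha : ‖a‖ < 1) (hx : ‖x‖ < 1) (hax : x ≠ a) :
    ‖deriv (T a) x / T a x‖ ^ 2 = 4 * Real.sinh (Real.log ‖T a x‖) ^ 2 / (1 - ‖x‖ ^ 2) ^ 2 := by
  have hd := den_ne a x ha hx
  have hT : T a x ≠ 0 := by
    rw [T]; exact div_ne_zero (sub_ne_zero.mpr hax) hd
  have hTn : 0 < ‖T a x‖ := norm_pos_iff.mpr hT
  have hx1 : 0 < 1 - ‖x‖ ^ 2 := by nlinarith [norm_nonneg x]
  have ha1 : 0 < 1 - ‖a‖ ^ 2 := by nlinarith [norm_nonneg a]
  have hD : 0 < ‖1 - (starRingEnd ℂ) a * x‖ := norm_pos_iff.mpr hd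
  have e1 : Real.sinh (Real.log ‖T a x‖) = -((1 - ‖T a x‖ ^ 2) / (2 * ‖T a x‖)) := by
    rw [Real.sinh_eq, Real.exp_neg, Real.exp_log hTn]
    field_simp
    ring
  have e2 : ‖deriv (T a) x‖ = (1 - ‖a‖ ^ 2) / ‖1 - (starRingEnd ℂ) a * x‖ ^ 2 := by
    rw [(T_hasDeriv a x ha hx).deriv, norm_div, norm_pow, Complex.norm_real, Real.norm_of_nonneg ha1.le]
  rw [norm_div, e2, e1, one_sub_T a x ha hx]
  field_simp
  ring

theorem LOC (B : ℂ → ℂ) (hB : DifferentiableOn ℂ B UD) (hm : MapsTo B UD UD) (M K : ℕ) (hM : 1 ≤ M)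
    (c : Fin M → ℂ) (hc : ∀ i, c i ∈ UD) (x : ℂ) (hx : x ∈ UD) (hd0 : deriv B x ≠ 0) (hcx : ∀ i, x ≠ c i)
    (hneg : LL B M K c x < 0) (hmin : ∀ᶠ z in 𝓝 x, LL B M K c x ≤ LL B M K c z) : False := by
  have hUD : IsOpen UD := isOpen_ball
  have hx1 : ‖x‖ < 1 := by simpa [UD] using hx
  have hc1 : ∀ i, ‖c i‖ < 1 := fun i => by simpa [UD] using hc i
  have hBx1 : ‖B x‖ < 1 := by simpa [UD] using hm hx
  have hBan : ∀ z ∈ UD, AnalyticAt ℂ B z := fun z hz => hB.analyticAt (hUD.mem_nhds hz)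
  have hsh : AnalyticAt ℂ (fun z => x + z) 0 := by fun_prop
  have hx0 : x + 0 = x := add_zero x
  have hB0 : AnalyticAt ℂ (fun z => B (x + z)) 0 := by
    apply AnalyticAt.comp' (g := B) _ hsh
    simpa using hBan x hx
  have hdB : ∀ z, x + z ∈ UD → deriv (fun w => B (x + w)) z = deriv B (x + z) := by
    intro z _
    exact deriv_comp_const_add (f := B) (a := x) (x := z)
  have hD0 : AnalyticAt ℂ (fun z => deriv B (x + z)) 0 := by
    apply AnalyticAt.comp' (g := deriv B) _ hsh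
    simpa using (hBan x hx).deriv
  have hT0 : ∀ i, AnalyticAt ℂ (fun z => T (c i) (x + z)) 0 := by
    intro i
    have h1 : AnalyticAt ℂ (T (c i)) x := by
      unfold T
      apply AnalyticAt.fun_div
      · fun_prop
      · fun_prop
      · exact den_ne _ _ (hc1 i) hx1
    apply AnalyticAt.comp' (g := T (c i)) _ hsh
    simpa using h1
  have hTne : ∀ i, T (c i) x ≠ 0 := by
    intro i
    rw [T]; exact div_ne_zero (sub_ne_zero.mpr (hcx i)) (den_ne _ _ (hc1 i) hx1)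
  set F : ℂ → ℝ := fun z => M * (Real.log ‖deriv B (x + z)‖ + Real.log (1 - ‖x + z‖ ^ 2) + (-1) * Real.log (1 - ‖B (x + z)‖ ^ 2)) +
    ∑ i, Real.log (Real.cosh (K * Real.log ‖T (c i) (x + z)‖)) with hF
  have hLL : ∀ᶠ z in 𝓝 (0 : ℂ), F z = LL B M K c (x + z) := by
    have hcont : Tendsto (fun z : ℂ => x + z) (𝓝 0) (𝓝 x) := by
      have := (by fun_prop : Continuous fun z : ℂ => x + z).tendsto 0
      simpa using this
    have h1 : ∀ᶠ z in 𝓝 (0 : ℂ), x + z ∈ UD := hcont.eventually (hUD.mem_nhds hx)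
    have h2 : ∀ᶠ z in 𝓝 (0 : ℂ), deriv B (x + z) ≠ 0 := by
      have := hD0.continuousAt.eventually_ne (show deriv B (x + 0) ≠ 0 by rwa [hx0])
      exact this
    filter_upwards [h1, h2] with z hz hz2
    have hz1 : ‖x + z‖ < 1 := by simpa [UD] using hz
    have hBz : ‖B (x + z)‖ < 1 := by simpa [UD] using hm hz
    have p1 : 0 < 1 - ‖x + z‖ ^ 2 := by nlinarith [norm_nonneg (x + z)]
    have p2 : 0 < 1 - ‖B (x + z)‖ ^ 2 := by nlinarith [norm_nonneg (B (x + z))]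
    have p3 : 0 < ‖deriv B (x + z)‖ := norm_pos_iff.mpr hz2
    simp only [hF, LL, hd]
    congr 2
    rw [Real.log_mul (div_pos p3 p2).ne' p1.ne', Real.log_div p3.ne' p2.ne']
    ring
  have hF0 : F 0 = LL B M K c x := by
    have := hLL.self_of_nhds
    rwa [hx0] at this
  have hFmin : ∀ᶠ z in 𝓝 (0 : ℂ), F 0 ≤ F z := by
    have hcont : Tendsto (fun z : ℂ => x + z) (𝓝 0) (𝓝 x) := by
      have := (by fun_prop : Continuous fun z : ℂ => x + z).tendsto 0
      simpa using this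
    filter_upwards [hLL, hcont.eventually hmin] with z h1 h2
    rw [h1, hF0]; exact h2
  -- the Laplacian
  have L1 := LA_log (fun z => deriv B (x + z)) hD0 (by simpa using hd0)
  have L2 := LA_one x hx1
  have L3 := LA_smul (-1) (LA_B (fun z => B (x + z)) hB0 (by simpa using hBx1))
  have L4 := LA_smul (M : ℝ) (LA_add (LA_add L1 L2) L3)
  have L5 := LA_sum Finset.univ _ _ (fun i _ => LA_cosh (K : ℝ) (fun z => T (c i) (x + z)) (hT0 i) (by simpa using hTne i))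
  have L6 := LA_add L4 L5
  have hge := LA_test (F := F) L6 hFmin
  -- the numerical contradiction
  have hdB0 : deriv (fun z => B (x + z)) 0 = deriv B x := by
    have := hdB 0 (by rwa [hx0])
    rwa [hx0] at this
  have hdT0 : ∀ i, deriv (fun z => T (c i) (x + z)) 0 = deriv (T (c i)) x := by
    intro i
    have := deriv_comp_const_add (f := T (c i)) (a := x) (x := (0 : ℂ))
    rwa [hx0] at this
  simp only [hdB0, hdT0, hx0] at hge
  set D := 1 - ‖x‖ ^ 2 with hDdef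
  have hD : 0 < D := by nlinarith [norm_nonneg x]
  set E := 1 - ‖B x‖ ^ 2 with hEdef
  have hE : 0 < E := by nlinarith [norm_nonneg (B x)]
  set b := hd B x * D with hb
  have hdn : 0 < ‖deriv B x‖ := norm_pos_iff.mpr hd0
  have hb0 : 0 < b := mul_pos (div_pos hdn hE) hD
  have hbE : ‖deriv B x‖ ^ 2 / E ^ 2 = b ^ 2 / D ^ 2 := by
    rw [hb, hd, ← hEdef]; field_simp
  set X : Fin M → ℝ := fun i => 1 / Real.cosh (K * Real.log ‖T (c i) x‖) ^ 2 with hX
  have hXp : ∀ i, 0 < X i := fun i => by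
    have := Real.cosh_pos (K * Real.log ‖T (c i) x‖)
    simp only [hX]; positivity
  have hlog : ∑ i, Real.log (X i) = -2 * ∑ i, Real.log (Real.cosh (K * Real.log ‖T (c i) x‖)) := by
    rw [Finset.mul_sum]
    refine Finset.sum_congr rfl fun i _ => ?_
    simp only [hX]
    rw [one_div, Real.log_inv, Real.log_pow]
    push_cast; ring
  have hAM : M * b ^ 2 < ∑ i, X i := by
    apply amgm M hM b hb0 X hXp
    rw [hlog]
    have := hneg
    simp only [LL, ← hDdef, ← hb] at this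
    linarith
  have hterm : ∀ i ∈ Finset.univ, (K : ℝ) ^ 2 * ‖deriv (T (c i)) x / T (c i) x‖ ^ 2 / Real.cosh (K * Real.log ‖T (c i) x‖) ^ 2 ≤
      4 / D ^ 2 * (1 - X i) := by
    intro i _
    have hC := Real.cosh_pos (K * Real.log ‖T (c i) x‖)
    rw [T_log (c i) x (hc1 i) hx1 (hcx i), ← hDdef]
    have h1 := sinh_sq_le K (Real.log ‖T (c i) x‖)
    have h2 : Real.cosh (K * Real.log ‖T (c i) x‖) ^ 2 - Real.sinh (K * Real.log ‖T (c i) x‖) ^ 2 = 1 := Real.cosh_sq_sub_sinh_sq _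
    have h3 : 1 - X i = Real.sinh (K * Real.log ‖T (c i) x‖) ^ 2 / Real.cosh (K * Real.log ‖T (c i) x‖) ^ 2 := by
      simp only [hX]; field_simp; linarith
    rw [h3]
    have h4 : (K : ℝ) ^ 2 * (4 * Real.sinh (Real.log ‖T (c i) x‖) ^ 2 / D ^ 2) / Real.cosh (K * Real.log ‖T (c i) x‖) ^ 2 =
        4 / D ^ 2 * (((K : ℝ) ^ 2 * Real.sinh (Real.log ‖T (c i) x‖) ^ 2) / Real.cosh (K * Real.log ‖T (c i) x‖) ^ 2) := by
      field_simp
    rw [h4]
    gcongr
  have hsum := Finset.sum_le_sum hterm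
  rw [← Finset.mul_sum, Finset.sum_sub_distrib] at hsum
  simp only [Finset.sum_const, Finset.card_univ, Fintype.card_fin, nsmul_eq_mul, mul_one] at hsum
  have e1 : -1 * (-4 * ‖deriv B x‖ ^ 2 / E ^ 2) = 4 * (b ^ 2 / D ^ 2) := by
    rw [← hbE]; ring
  rw [e1] at hge
  have e2 : (M : ℝ) * (0 + -4 / D ^ 2 + 4 * (b ^ 2 / D ^ 2)) = 4 / D ^ 2 * (M * b ^ 2 - M) := by
    field_simp
    ring
  rw [e2] at hge
  have h9 : 4 / D ^ 2 * (M * b ^ 2 - M) + 4 / D ^ 2 * (M - ∑ i, X i) < 0 := by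
    have : 0 < 4 / D ^ 2 := by positivity
    nlinarith
  linarith

end PO
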